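import Pool.Graph.R_pool_sql_team_seeded_707910d6.T2H98.EGZ.Assembly2
import Pool.Graph.R_pool_sql_team_seeded_707910d6.T2H98.EGZ.TightH
import Pool.Graph.R_pool_sql_team_seeded_707910d6.T2H98.EGZ.Zero
import Pool.Graph.R_pool_sql_team_seeded_707910d6.T2H98.EGZ.C.T0
import Pool.Graph.R_pool_sql_team_seeded_707910d6.T2H98.EGZ.C.T1
import Pool.Graph.R_pool_sql_team_seeded_707910d6.T2H98.EGZ.C.T2
import Pool.Graph.R_pool_sql_team_seeded_707910d6.T2H98.EGZ.C.T3
import Pool.Graph.R_pool_sql_team_seeded_707910d6.T2H98.EGZ.C.T4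
import Pool.Graph.R_pool_sql_team_seeded_707910d6.T2H98.EGZ.C.T5
import Pool.Graph.R_pool_sql_team_seeded_707910d6.T2H98.EGZ.C.T6

/-!
# EGZ constant of (Z/9)^5: the 48 class computations put in a chain

The 45-cap `D45` of AG(5,3) has no lift to (Z/9)^5. The 48 class steps `step00` - `step47`
and the last class (`excl_one`) come from library modules; here they are put in a chain and
`no_lift_of_reps` is applied.
-/

set_option autoImplicit false

namespace Pool.Agent.H899.EGZ

open Pool.Agent.T2H98.EGZ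

/-- one more value excluded -/
theorem ext {l l' : List Nat} {a : Nat} (e : l' = l ++ [a])
    (h : forall x, x ∈ l -> Excl L0 (pt 5 x)) (ha : Excl L0 (pt 5 a)) :
    forall x, x ∈ l' -> Excl L0 (pt 5 x) := by
  subst e
  intro x hx
  rcases List.mem_append.1 hx with h1 | h1
  · exact h x h1
  · rw [List.mem_singleton.1 h1]
    exact ha

theorem d00 : forall x, x ∈ K.C00.done -> Excl L0 (pt 5 x) := by
  intro x hx
  exact absurd hx List.not_mem_nil

theorem d01 : forall x, x ∈ K.C01.done -> Excl L0 (pt 5 x) :=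
  ext (l := K.C00.done) (a := 108) rfl d00 (step00 d00)

theorem d02 : forall x, x ∈ K.C02.done -> Excl L0 (pt 5 x) :=
  ext (l := K.C01.done) (a := 92) rfl d01 (step01 d01)

theorem d03 : forall x, x ∈ K.C03.done -> Excl L0 (pt 5 x) :=
  ext (l := K.C02.done) (a := 136) rfl d02 (step02 d02)

theorem d04 : forall x, x ∈ K.C04.done -> Excl L0 (pt 5 x) :=
  ext (l := K.C03.done) (a := 138) rfl d03 (step03 d03)

theorem d05 : forall x, x ∈ K.C05.done -> Excl L0 (pt 5 x) :=
  ext (l := K.C04.done) (a := 148) rfl d04 (step04 d04)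

theorem d06 : forall x, x ∈ K.C06.done -> Excl L0 (pt 5 x) :=
  ext (l := K.C05.done) (a := 130) rfl d05 (step05 d05)

theorem d07 : forall x, x ∈ K.C07.done -> Excl L0 (pt 5 x) :=
  ext (l := K.C06.done) (a := 112) rfl d06 (step06 d06)

theorem d08 : forall x, x ∈ K.C08.done -> Excl L0 (pt 5 x) :=
  ext (l := K.C07.done) (a := 56) rfl d07 (step07 d07)

theorem d09 : forall x, x ∈ K.C09.done -> Excl L0 (pt 5 x) :=
  ext (l := K.C08.done) (a := 27) rfl d08 (step08 d08)

theorem d10 : forall x, x ∈ K.C10.done -> Excl L0 (pt 5 x) :=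
  ext (l := K.C09.done) (a := 111) rfl d09 (step09 d09)

theorem d11 : forall x, x ∈ K.C11.done -> Excl L0 (pt 5 x) :=
  ext (l := K.C10.done) (a := 90) rfl d10 (step10 d10)

theorem d12 : forall x, x ∈ K.C12.done -> Excl L0 (pt 5 x) :=
  ext (l := K.C11.done) (a := 140) rfl d11 (step11 d11)

theorem d13 : forall x, x ∈ K.C13.done -> Excl L0 (pt 5 x) :=
  ext (l := K.C12.done) (a := 143) rfl d12 (step12 d12)

theorem d14 : forall x, x ∈ K.C14.done -> Excl L0 (pt 5 x) :=
  ext (l := K.C13.done) (a := 110) rfl d13 (step13 d13)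

theorem d15 : forall x, x ∈ K.C15.done -> Excl L0 (pt 5 x) :=
  ext (l := K.C14.done) (a := 98) rfl d14 (step14 d14)

theorem d16 : forall x, x ∈ K.C16.done -> Excl L0 (pt 5 x) :=
  ext (l := K.C15.done) (a := 58) rfl d15 (step15 d15)

theorem d17 : forall x, x ∈ K.C17.done -> Excl L0 (pt 5 x) :=
  ext (l := K.C16.done) (a := 91) rfl d16 (step16 d16)

theorem d18 : forall x, x ∈ K.C18.done -> Excl L0 (pt 5 x) :=
  ext (l := K.C17.done) (a := 89) rfl d17 (step17 d17)

theorem d19 : forall x, x ∈ K.C19.done -> Excl L0 (pt 5 x) :=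
  ext (l := K.C18.done) (a := 94) rfl d18 (step18 d18)

theorem d20 : forall x, x ∈ K.C20.done -> Excl L0 (pt 5 x) :=
  ext (l := K.C19.done) (a := 127) rfl d19 (step19 d19)

theorem d21 : forall x, x ∈ K.C21.done -> Excl L0 (pt 5 x) :=
  ext (l := K.C20.done) (a := 28) rfl d20 (step20 d20)

theorem d22 : forall x, x ∈ K.C22.done -> Excl L0 (pt 5 x) :=
  ext (l := K.C21.done) (a := 12) rfl d21 (step21 d21)

theorem d23 : forall x, x ∈ K.C23.done -> Excl L0 (pt 5 x) :=
  ext (l := K.C22.done) (a := 61) rfl d22 (step22 d22)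

theorem d24 : forall x, x ∈ K.C24.done -> Excl L0 (pt 5 x) :=
  ext (l := K.C23.done) (a := 34) rfl d23 (step23 d23)

theorem d25 : forall x, x ∈ K.C25.done -> Excl L0 (pt 5 x) :=
  ext (l := K.C24.done) (a := 141) rfl d24 (step24 d24)

theorem d26 : forall x, x ∈ K.C26.done -> Excl L0 (pt 5 x) :=
  ext (l := K.C25.done) (a := 93) rfl d25 (step25 d25)

theorem d27 : forall x, x ∈ K.C27.done -> Excl L0 (pt 5 x) :=
  ext (l := K.C26.done) (a := 145) rfl d26 (step26 d26)

theorem d28 : forall x, x ∈ K.C28.done -> Excl L0 (pt 5 x) :=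
  ext (l := K.C27.done) (a := 109) rfl d27 (step27 d27)

theorem d29 : forall x, x ∈ K.C29.done -> Excl L0 (pt 5 x) :=
  ext (l := K.C28.done) (a := 129) rfl d28 (step28 d28)

theorem d30 : forall x, x ∈ K.C30.done -> Excl L0 (pt 5 x) :=
  ext (l := K.C29.done) (a := 55) rfl d29 (step29 d29)

theorem d31 : forall x, x ∈ K.C31.done -> Excl L0 (pt 5 x) :=
  ext (l := K.C30.done) (a := 115) rfl d30 (step30 d30)

theorem d32 : forall x, x ∈ K.C32.done -> Excl L0 (pt 5 x) :=
  ext (l := K.C31.done) (a := 31) rfl d31 (step31 d31)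

theorem d33 : forall x, x ∈ K.C33.done -> Excl L0 (pt 5 x) :=
  ext (l := K.C32.done) (a := 13) rfl d32 (step32 d32)

theorem d34 : forall x, x ∈ K.C34.done -> Excl L0 (pt 5 x) :=
  ext (l := K.C33.done) (a := 4) rfl d33 (step33 d33)

theorem d35 : forall x, x ∈ K.C35.done -> Excl L0 (pt 5 x) :=
  ext (l := K.C34.done) (a := 146) rfl d34 (step34 d34)

theorem d36 : forall x, x ∈ K.C36.done -> Excl L0 (pt 5 x) :=
  ext (l := K.C35.done) (a := 133) rfl d35 (step35 d35)

theorem d37 : forall x, x ∈ K.C37.done -> Excl L0 (pt 5 x) :=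
  ext (l := K.C36.done) (a := 116) rfl d36 (step36 d36)

theorem d38 : forall x, x ∈ K.C38.done -> Excl L0 (pt 5 x) :=
  ext (l := K.C37.done) (a := 149) rfl d37 (step37 d37)

theorem d39 : forall x, x ∈ K.C39.done -> Excl L0 (pt 5 x) :=
  ext (l := K.C38.done) (a := 88) rfl d38 (step38 d38)

theorem d40 : forall x, x ∈ K.C40.done -> Excl L0 (pt 5 x) :=
  ext (l := K.C39.done) (a := 10) rfl d39 (step39 d39)

theorem d41 : forall x, x ∈ K.C41.done -> Excl L0 (pt 5 x) :=
  ext (l := K.C40.done) (a := 82) rfl d40 (step40 d40)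

theorem d42 : forall x, x ∈ K.C42.done -> Excl L0 (pt 5 x) :=
  ext (l := K.C41.done) (a := 85) rfl d41 (step41 d41)

theorem d43 : forall x, x ∈ K.C43.done -> Excl L0 (pt 5 x) :=
  ext (l := K.C42.done) (a := 152) rfl d42 (step42 d42)

theorem d44 : forall x, x ∈ K.C44.done -> Excl L0 (pt 5 x) :=
  ext (l := K.C43.done) (a := 9) rfl d43 (step43 d43)

theorem d45 : forall x, x ∈ K.C45.done -> Excl L0 (pt 5 x) :=
  ext (l := K.C44.done) (a := 35) rfl d44 (step44 d44)

theorem d46 : forall x, x ∈ K.C46.done -> Excl L0 (pt 5 x) :=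
  ext (l := K.C45.done) (a := 57) rfl d45 (step45 d45)

theorem d47 : forall x, x ∈ K.C47.done -> Excl L0 (pt 5 x) :=
  ext (l := K.C46.done) (a := 51) rfl d46 (step46 d46)

/-- the 48 values excluded by the class steps -/
theorem all48 : forall x, x ∈ K.C47.done ++ [68] -> Excl L0 (pt 5 x) :=
  ext (l := K.C47.done) (a := 68) rfl d47 (step47 d47)

/-- every representative except `1` is among the 48 values -/
theorem cover48 : forall x, x ∈ reps -> x ≠ 1 -> x ∈ K.C47.done ++ [68] := by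
  have e : K.C47.done ++ [68] = [108, 92, 136, 138, 148, 130, 112, 56, 27, 111, 90, 140, 143, 110, 98, 58, 91, 89, 94, 127, 28, 12, 61, 34, 141, 93, 145, 109, 129, 55, 115, 31, 13, 4, 146, 133, 116, 149, 88, 10, 82, 85, 152, 9, 35, 57, 51, 68] := rfl
  rw [e]
  decide +kernel

/-- **The 45-cap of AG(5,3) has no lift to (Z/9)^5.** -/
theorem no_lift : Not (Exists fun v => IsLift D45 v) := by
  have h : forall x, x ∈ reps -> x ≠ 1 -> Excl L0 (pt 5 x) := fun x hx h1 =>
    all48 x (cover48 x hx h1)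
  refine no_lift_of_reps fun x hx => ?_
  by_cases h1 : x = 1
  · rw [h1]
    exact excl_one h
  · exact h x hx h1

end Pool.Agent.H899.EGZ
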